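import Pool.Agent.R67.AL2

/-!
# Alpha-labelings of the prisms `C_(4m+2) × P_(2n+1)`

For all `m ≥ 2` and `n ≥ 1` the Cartesian product of the cycle with `4 m + 2` vertices and the path
with `2 n + 1` vertices has an `α`-labeling. Together with the known case `m = 1` this determines
all pairs `(m, n)` with `m, n ≥ 1`: all of them.

Let `p = 2 m + 1`, `N = 2 p`, and let `q = N (4 n + 1)` be the number of edges. We write the
vertices as `(i, t)`, where `i` is the row and `t ∈ {0, …, N - 1}` is the position on the cycle,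
counted from the position `i`, so that `(i, t)` is adjacent to `(i, t ± 1)` and to
`(i + 1, t - 1)`. In general the label of `(i, t)` is `N i + t / 2 + 1` for even `t`, and
`q + 1 - (N i + (t - 1) / 2)` for odd `t`, with some exceptions for odd `t` if `i ≥ 2`,
which repeat with period two in `i`, and with further exceptions in the rows `0` and `1`.
-/

set_option autoImplicit false

namespace Pool.Agent.Results.MP_d9e2d7_co.AlphaLabelings

open Pool.Agent.R67.AL SimpleGraph

/-- The value `|f x - f y|` of the edge `x y`. -/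
def edgeValue {V : Type} (f : V → ℕ) : Sym2 V → ℕ :=
  Sym2.lift ⟨fun x y => ((f x : ℤ) - (f y : ℤ)).natAbs, fun x y => by
    show ((f x : ℤ) - (f y : ℤ)).natAbs = ((f y : ℤ) - (f x : ℤ)).natAbs
    omega⟩

/-- `f` is an `α`-labeling of the graph `G` with `q` edges: `f` is injective with values in
`{0, …, q}`, the values of the edges are exactly `1, …, q`, each attained once, and for some
integer `k` every edge has one endpoint with label at most `k` and one with label larger than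
`k`. -/
def IsAlphaLabeling {V : Type} (G : SimpleGraph V) (f : V → ℕ) : Prop :=
  Function.Injective f ∧
  (∀ v, f v ≤ G.edgeSet.ncard) ∧
  Set.BijOn (edgeValue f) G.edgeSet (Set.Icc 1 G.edgeSet.ncard) ∧
  ∃ k : ℕ, ∀ x y, G.Adj x y → (f x ≤ k ∧ k < f y) ∨ (f y ≤ k ∧ k < f x)

/-- The position on the cycle, counted from the diagonal. -/
def tpos (m : ℕ) (c i : ℕ) : ℕ := (c + i * (4 * m + 1)) % (4 * m + 2)

/-- The labeling. -/
def lab (m n : ℕ) (v : Fin (4 * m + 2) × Fin (2 * n + 1)) : ℕ :=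
  if tpos m v.1 v.2 % 2 = 0 then lowLab m v.2 (tpos m v.1 v.2 / 2)
  else (4 * m + 2) * (4 * n + 1) + 1 - hpos m v.2 (tpos m v.1 v.2 / 2)

/-- The vertex in row `i` at the position `t`. -/
def vtx (m n i t : ℕ) : Fin (4 * m + 2) × Fin (2 * n + 1) :=
  (⟨(t + i) % (4 * m + 2), Nat.mod_lt _ (by omega)⟩, ⟨i % (2 * n + 1), Nat.mod_lt _ (by omega)⟩)

theorem tpos_lt (m c i : ℕ) : tpos m c i < 4 * m + 2 := Nat.mod_lt _ (by omega)

theorem tpos_vtx {m n i t : ℕ} (hi : i ≤ 2 * n) (ht : t < 4 * m + 2) :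
    tpos m (vtx m n i t).1 (vtx m n i t).2 = t := by
  have h1 : ((vtx m n i t).2 : ℕ) = i := Nat.mod_eq_of_lt (by omega)
  have h2 : ((vtx m n i t).1 : ℕ) = (t + i) % (4 * m + 2) := rfl
  rw [tpos, h1, h2, Nat.mod_add_mod]
  have : t + i + i * (4 * m + 1) = t + i * (4 * m + 2) := by ring
  rw [this, Nat.add_mul_mod_self_right, Nat.mod_eq_of_lt ht]

theorem lab_low {m n i s : ℕ} (hi : i ≤ 2 * n) (hs : s ≤ 2 * m) :
    lab m n (vtx m n i (2 * s)) = lowLab m i s := by
  have h1 : ((vtx m n i (2 * s)).2 : ℕ) = i := Nat.mod_eq_of_lt (by omega)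
  unfold lab
  rw [tpos_vtx hi (by omega), if_pos (by omega), h1]
  congr 1
  omega

theorem lab_high {m n i s : ℕ} (hi : i ≤ 2 * n) (hs : s ≤ 2 * m) :
    lab m n (vtx m n i (2 * s + 1)) = (4 * m + 2) * (4 * n + 1) + 1 - hpos m i s := by
  have h1 : ((vtx m n i (2 * s + 1)).2 : ℕ) = i := Nat.mod_eq_of_lt (by omega)
  unfold lab
  rw [tpos_vtx hi (by omega), if_neg (by omega), h1]
  congr 2
  omega

/-- Neighbours on the cycle. -/
theorem cyc_adj (m x : ℕ) (h1 : x % (4 * m + 2) < 4 * m + 2) (h2 : (x + 1) % (4 * m + 2) < 4 * m + 2) :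
    (cycleGraph (4 * m + 2)).Adj ⟨x % (4 * m + 2), h1⟩ ⟨(x + 1) % (4 * m + 2), h2⟩ := by
  rw [cycleGraph_adj]
  right
  apply Fin.ext
  rw [Fin.sub_def]
  simp only
  have h3 : (x + 1) % (4 * m + 2) = (x % (4 * m + 2) + 1) % (4 * m + 2) := by
    rw [Nat.mod_add_mod]
  rcases Nat.lt_or_ge (x % (4 * m + 2) + 1) (4 * m + 2) with h | h
  · rw [h3, Nat.mod_eq_of_lt h]
    have : 4 * m + 2 - x % (4 * m + 2) + (x % (4 * m + 2) + 1) = 1 + (4 * m + 2) := by omega
    rw [this, Nat.add_mod_right]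
    rfl
  · have h4 : x % (4 * m + 2) + 1 = 4 * m + 2 := by omega
    rw [h3, h4, Nat.mod_self]
    have : 4 * m + 2 - x % (4 * m + 2) + 0 = 1 := by omega
    rw [this]
    rfl

theorem adj_row {m n i t : ℕ} :
    ((cycleGraph (4 * m + 2)) □ (pathGraph (2 * n + 1))).Adj (vtx m n i t) (vtx m n i (t + 1)) := by
  rw [boxProd_adj]
  left
  refine ⟨?_, rfl⟩
  have := cyc_adj m (t + i) (Nat.mod_lt _ (by omega)) (Nat.mod_lt _ (by omega))
  have e : t + i + 1 = t + 1 + i := by ring
  simp only [e] at this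
  exact this

theorem vtx_wrap {m n i : ℕ} : vtx m n i (4 * m + 2) = vtx m n i 0 := by
  unfold vtx
  have : 4 * m + 2 + i = i + (4 * m + 2) := by ring
  simp only [this, Nat.add_mod_right, Nat.zero_add]

theorem adj_vert {m n i t : ℕ} (hi : i + 1 ≤ 2 * n) :
    ((cycleGraph (4 * m + 2)) □ (pathGraph (2 * n + 1))).Adj (vtx m n i (t + 1))
      (vtx m n (i + 1) t) := by
  rw [boxProd_adj]
  right
  constructor
  · rw [pathGraph_adj]
    left
    show i % (2 * n + 1) + 1 = (i + 1) % (2 * n + 1)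
    rw [Nat.mod_eq_of_lt (by omega), Nat.mod_eq_of_lt (by omega)]
  · apply Fin.ext
    show (t + 1 + i) % (4 * m + 2) = (t + (i + 1)) % (4 * m + 2)
    congr 1
    omega

theorem adj_of_Ed {m n i s j u : ℕ} (hi : i ≤ 2 * n) (hj : j ≤ 2 * n)
    (h : Ed m i s j u) :
    ((cycleGraph (4 * m + 2)) □ (pathGraph (2 * n + 1))).Adj (vtx m n i (2 * s))
      (vtx m n j (2 * u + 1)) := by
  rcases h with ⟨rfl, h | h | ⟨h, h'⟩⟩ | ⟨rfl, h | ⟨h, h'⟩⟩ | ⟨rfl, h⟩
  · subst h
    exact adj_row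
  · subst h
    have := (adj_row (m := m) (n := n) (i := j) (t := 2 * u + 1)).symm
    have e : 2 * (u + 1) = 2 * u + 1 + 1 := by ring
    rw [e]
    exact this
  · subst h h'
    have := (adj_row (m := m) (n := n) (i := j) (t := 4 * m + 1)).symm
    rw [vtx_wrap] at this
    have e : 2 * (2 * m) + 1 = 4 * m + 1 := by ring
    rw [e]
    exact this
  · subst h
    have := adj_vert (m := m) (n := n) (i := i) (t := 2 * u + 1) hj
    have e : 2 * (u + 1) = 2 * u + 1 + 1 := by ring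
    rw [e]
    exact this
  · subst h h'
    have := adj_vert (m := m) (n := n) (i := i) (t := 4 * m + 1) hj
    rw [vtx_wrap] at this
    have e : 2 * (2 * m) + 1 = 4 * m + 1 := by ring
    rw [e]
    exact this
  · subst h
    exact (adj_vert (m := m) (n := n) (i := j) (t := 2 * u) hi).symm

/-- Number of edges, upper bound. -/
theorem ncard_le (m n : ℕ) :
    ((cycleGraph (4 * m + 2)) □ (pathGraph (2 * n + 1))).edgeSet.ncard ≤
      (4 * m + 2) * (4 * n + 1) := by
  classical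
  let φ : (Fin (4 * m + 2) × Fin (2 * n + 1)) ⊕ (Fin (4 * m + 2) × Fin (2 * n)) →
      Sym2 (Fin (4 * m + 2) × Fin (2 * n + 1)) := fun z =>
    match z with
    | Sum.inl a => s((a.1, a.2), (a.1 + 1, a.2))
    | Sum.inr a => s((a.1, a.2.castSucc), (a.1, a.2.succ))
  have hsub : ((cycleGraph (4 * m + 2)) □ (pathGraph (2 * n + 1))).edgeSet ⊆
      ↑(Finset.univ.image φ) := by
    intro e he
    induction e using Sym2.ind with
    | _ x y =>
      rw [mem_edgeSet, boxProd_adj] at he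
      simp only [Finset.coe_image, Finset.coe_univ, Set.image_univ, Set.mem_range]
      obtain ⟨x1, x2⟩ := x
      obtain ⟨y1, y2⟩ := y
      rcases he with ⟨h, h'⟩ | ⟨h, h'⟩
      · simp only at h h'
        subst h'
        rw [cycleGraph_adj] at h
        rcases h with h | h
        · refine ⟨Sum.inl (y1, x2), ?_⟩
          have : x1 = y1 + 1 := by rw [← h]; abel
          rw [this]
          exact Sym2.eq_swap
        · refine ⟨Sum.inl (x1, x2), ?_⟩
          have : y1 = x1 + 1 := by rw [← h]; abel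
          rw [this]
      · simp only at h h'
        subst h'
        rw [pathGraph_adj] at h
        rcases h with h | h
        · refine ⟨Sum.inr (x1, ⟨x2, by omega⟩), ?_⟩
          have e1 : (⟨x2, by omega⟩ : Fin (2 * n)).castSucc = x2 := Fin.ext rfl
          have e2 : (⟨x2, by omega⟩ : Fin (2 * n)).succ = y2 := Fin.ext h
          show s((x1, (⟨x2, _⟩ : Fin (2 * n)).castSucc), (x1, (⟨x2, _⟩ : Fin (2 * n)).succ)) = _
          rw [e1, e2]
        · refine ⟨Sum.inr (x1, ⟨y2, by omega⟩), ?_⟩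
          have e1 : (⟨y2, by omega⟩ : Fin (2 * n)).castSucc = y2 := Fin.ext rfl
          have e2 : (⟨y2, by omega⟩ : Fin (2 * n)).succ = x2 := Fin.ext h
          show s((x1, (⟨y2, _⟩ : Fin (2 * n)).castSucc), (x1, (⟨y2, _⟩ : Fin (2 * n)).succ)) = _
          rw [e1, e2]
          exact Sym2.eq_swap
  calc ((cycleGraph (4 * m + 2)) □ (pathGraph (2 * n + 1))).edgeSet.ncard
      ≤ (↑(Finset.univ.image φ) : Set _).ncard := Set.ncard_le_ncard hsub (Finset.finite_toSet _)
    _ = (Finset.univ.image φ).card := Set.ncard_coe_finset _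
    _ ≤ (Finset.univ : Finset ((Fin (4 * m + 2) × Fin (2 * n + 1)) ⊕
          (Fin (4 * m + 2) × Fin (2 * n)))).card := Finset.card_image_le
    _ = (4 * m + 2) * (4 * n + 1) := by
        simp only [Finset.card_univ, Fintype.card_sum, Fintype.card_prod, Fintype.card_fin]
        ring

/-- Every vertex is `vtx m n i t` for its row `i` and its position `t`. -/
theorem eq_of_tpos {m n : ℕ} {v w : Fin (4 * m + 2) × Fin (2 * n + 1)} (h : v.2 = w.2)
    (ht : tpos m v.1 v.2 = tpos m w.1 w.2) : v = w := by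
  obtain ⟨v1, v2⟩ := v
  obtain ⟨w1, w2⟩ := w
  simp only at h ht
  subst h
  have h1 : (v1 : ℕ) ≡ w1 [MOD (4 * m + 2)] := Nat.ModEq.add_right_cancel' _ ht
  have h2 : (v1 : ℕ) = w1 := Nat.ModEq.eq_of_lt_of_lt h1 v1.2 w1.2
  rw [Fin.ext h2]

theorem lab_inj {m n : ℕ} (hm : 2 ≤ m) (hn : 1 ≤ n) : Function.Injective (lab m n) := by
  intro v w h
  have hv := v.2.2
  have hw := w.2.2
  have tv := tpos_lt m v.1 v.2
  have tw := tpos_lt m w.1 w.2
  have a1 := lowLab_le (s := tpos m v.1 v.2 / 2) hm hn (by omega) (show (v.2 : ℕ) ≤ 2 * n by omega)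
  have a2 := lowLab_le (s := tpos m w.1 w.2 / 2) hm hn (by omega) (show (w.2 : ℕ) ≤ 2 * n by omega)
  have b1 := hpos_le (s := tpos m v.1 v.2 / 2) hm hn (by omega) (show (v.2 : ℕ) ≤ 2 * n by omega)
  have b2 := hpos_le (s := tpos m w.1 w.2 / 2) hm hn (by omega) (show (w.2 : ℕ) ≤ 2 * n by omega)
  have e : (4 * m + 2) * (4 * n + 1) = 4 * ((4 * m + 2) * n) + (4 * m + 2) := by ring
  unfold lab at h
  rw [e] at h
  split_ifs at h with h1 h2 h2
  · obtain ⟨c1, c2⟩ := lowLab_inj hm (by omega) (by omega) h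
    exact eq_of_tpos (Fin.ext c1) (by omega)
  · omega
  · omega
  · obtain ⟨c1, c2⟩ := hpos_inj (m := m) (i := v.2) (i' := w.2) (s := tpos m v.1 v.2 / 2)
      (s' := tpos m w.1 w.2 / 2) hm (by omega) (by omega) (by omega)
    exact eq_of_tpos (Fin.ext c1) (by omega)

theorem lab_le {m n : ℕ} (hm : 2 ≤ m) (hn : 1 ≤ n) (v : Fin (4 * m + 2) × Fin (2 * n + 1)) :
    lab m n v ≤ (4 * m + 2) * (4 * n + 1) := by
  have hv := v.2.2
  have tv := tpos_lt m v.1 v.2
  have a1 := lowLab_le (s := tpos m v.1 v.2 / 2) hm hn (by omega) (show (v.2 : ℕ) ≤ 2 * n by omega)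
  have b1 := hpos_pos (i := v.2) (s := tpos m v.1 v.2 / 2) hm
  have e : (4 * m + 2) * (4 * n + 1) = 4 * ((4 * m + 2) * n) + (4 * m + 2) := by ring
  unfold lab
  rw [e]
  split_ifs <;> omega

/-- Low and high vertices are separated. -/
theorem lab_sep {m n : ℕ} (hm : 2 ≤ m) (hn : 1 ≤ n) (v : Fin (4 * m + 2) × Fin (2 * n + 1)) :
    (lab m n v ≤ 2 * ((4 * m + 2) * n) + (2 * m + 1) ↔ tpos m v.1 v.2 % 2 = 0) := by
  have hv := v.2.2
  have tv := tpos_lt m v.1 v.2
  have a1 := lowLab_le (s := tpos m v.1 v.2 / 2) hm hn (by omega) (show (v.2 : ℕ) ≤ 2 * n by omega)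
  have b1 := hpos_le (s := tpos m v.1 v.2 / 2) hm hn (by omega) (show (v.2 : ℕ) ≤ 2 * n by omega)
  have e : (4 * m + 2) * (4 * n + 1) = 4 * ((4 * m + 2) * n) + (4 * m + 2) := by ring
  unfold lab
  rw [e]
  split_ifs <;> omega

theorem tpos_parity (m c i : ℕ) : tpos m c i % 2 = (c + i) % 2 := by
  unfold tpos
  rw [Nat.mod_mod_of_dvd _ (show 2 ∣ 4 * m + 2 by omega)]
  have : c + i * (4 * m + 1) = c + i + 2 * (2 * (i * m)) := by ring
  omega

theorem succ_parity {m : ℕ} {a b : Fin (4 * m + 2)} (h : a - b = 1) :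
    ((a : ℕ) + b) % 2 = 1 := by
  have h1 : a = b + 1 := by rw [← h]; abel
  have h2 : (a : ℕ) = ((b : ℕ) + 1) % (4 * m + 2) := by
    rw [h1, Fin.val_add]
    rfl
  have hb := b.2
  rcases Nat.lt_or_ge ((b : ℕ) + 1) (4 * m + 2) with h3 | h3
  · rw [Nat.mod_eq_of_lt h3] at h2
    omega
  · have h4 : (b : ℕ) + 1 = 4 * m + 2 := by omega
    rw [h4, Nat.mod_self] at h2
    omega

/-- Adjacent vertices have positions of different parity. -/
theorem parity {m n : ℕ} {v w : Fin (4 * m + 2) × Fin (2 * n + 1)}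
    (h : (cycleGraph (4 * m + 2) □ pathGraph (2 * n + 1)).Adj v w) :
    (tpos m v.1 v.2 + tpos m w.1 w.2) % 2 = 1 := by
  have h1 := tpos_parity m v.1 v.2
  have h2 := tpos_parity m w.1 w.2
  rw [boxProd_adj] at h
  rcases h with ⟨h, h'⟩ | ⟨h, h'⟩
  · rw [cycleGraph_adj] at h
    rw [h'] at h1 ⊢
    rcases h with h | h
    · have := succ_parity h
      omega
    · have := succ_parity h
      omega
  · rw [pathGraph_adj] at h
    rw [h'] at h1 ⊢
    omega

theorem result : ∀ m n : ℕ, 2 ≤ m → 1 ≤ n →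
    ∃ f : Fin (4 * m + 2) × Fin (2 * n + 1) → ℕ,
      IsAlphaLabeling (cycleGraph (4 * m + 2) □ pathGraph (2 * n + 1)) f := by
  intro m n hm hn
  set G := (cycleGraph (4 * m + 2) □ pathGraph (2 * n + 1)) with hG
  have hle : G.edgeSet.ncard ≤ (4 * m + 2) * (4 * n + 1) := ncard_le m n
  have hfin : G.edgeSet.Finite := Set.toFinite _
  have hsurj : Set.Icc 1 ((4 * m + 2) * (4 * n + 1)) ⊆ edgeValue (lab m n) '' G.edgeSet := by
    intro d hd
    obtain ⟨hd1, hd2⟩ := hd
    obtain ⟨i, s, j, u, hi, hj, hs, hu, hE, hw⟩ := att_all (m := m) (n := n)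
      (w := (4 * m + 2) * (4 * n + 1) + 1 - d) hm hn (by omega) (by omega)
    refine ⟨s(vtx m n i (2 * s), vtx m n j (2 * u + 1)), adj_of_Ed hi hj hE, ?_⟩
    show ((lab m n (vtx m n i (2 * s)) : ℤ) - (lab m n (vtx m n j (2 * u + 1)) : ℤ)).natAbs = d
    rw [lab_low hi hs, lab_high hj hu]
    have a1 := lowLab_le hm hn hs hi
    have b1 := hpos_le hm hn hu hj
    have e : (4 * m + 2) * (4 * n + 1) = 4 * ((4 * m + 2) * n) + (4 * m + 2) := by ring
    rw [e] at hw hd2 ⊢
    omega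
  have hc : (Set.Icc 1 ((4 * m + 2) * (4 * n + 1))).ncard = (4 * m + 2) * (4 * n + 1) := by
    rw [Set.ncard_eq_toFinset_card']
    simp
  have him : (edgeValue (lab m n) '' G.edgeSet).ncard ≤ G.edgeSet.ncard :=
    Set.ncard_image_le hfin
  have hci : (Set.Icc 1 ((4 * m + 2) * (4 * n + 1))).ncard ≤
      (edgeValue (lab m n) '' G.edgeSet).ncard :=
    Set.ncard_le_ncard hsurj (hfin.image _)
  have hq : G.edgeSet.ncard = (4 * m + 2) * (4 * n + 1) := by omega
  have himage : edgeValue (lab m n) '' G.edgeSet = Set.Icc 1 ((4 * m + 2) * (4 * n + 1)) :=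
    (Set.eq_of_subset_of_ncard_le hsurj (by omega) (hfin.image _)).symm
  refine ⟨lab m n, lab_inj hm hn, fun v => hq ▸ lab_le hm hn v, ?_, ?_⟩
  · rw [hq, ← himage]
    refine Set.InjOn.bijOn_image ?_
    exact Set.injOn_of_ncard_image_eq (by omega) hfin
  · refine ⟨2 * ((4 * m + 2) * n) + (2 * m + 1), fun x y hxy => ?_⟩
    have h1 := lab_sep hm hn x
    have h2 := lab_sep hm hn y
    have h3 := parity hxy
    omega

end Pool.Agent.Results.MP_d9e2d7_co.AlphaLabelings
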